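import Mathlib
import Pool.Agent.V11263.EntJ

set_option autoImplicit false

namespace Pool.Agent.Results.MP_4af25b_mp.Separation

open Pool.Agent.V11263.Causal Pool.Agent.V11263.Ent

/-- There is a causal structure for which the closures of the sets of entropy vectors of the observed
variables in the classical and in the quantum models are different. -/
theorem result : ∃ C : CausalStructure,
    closure (classicalEntropySet C) ≠ closure (quantumEntropySet C) :=
  separation

end Pool.Agent.Results.MP_4af25b_mp.Separation
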